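import Mathlib
import Pool.Agent.W472.AC.Joint

/-!
# Algebraic complexity of the digits of `e`

Let `a_1, a_2, …` be the digits of a real number `x` in base `b`.  A first test of randomness is
the linear complexity of `a_1, …, a_L`.  Here is the corresponding test with algebraic relations:
the least `k` such that there is a nonzero `P ∈ ℚ[X, Y]` with `deg_X P ≤ k`, `deg_Y P ≤ r` and
`P(X, a_1 X + ⋯ + a_L X^L) ≡ 0 mod X^(L+1)`.  Counting coefficients, it never exceeds
`L / (r + 1) + 1`.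

* For the digits of `e` this maximum is attained asymptotically: the complexity of degree `r` is
  `L / (r + 1) + o(L)` for every `r`, uniformly in the base.
* The digits of `e^{k_1}, …, e^{k_m}` are jointly as complex as possible.
* In general, a measure of transcendence of `x` of degree `r` with exponent `w` gives the lower
  bound `(1 / (w + 1) - o(1)) L`.
-/

set_option autoImplicit false

namespace Pool.Agent.Results.MP_7e9a3a_nt.AlgebraicComplexity

open Finset Polynomial

/-- the `i`-th digit of `x` after the point in base `b` -/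
noncomputable def digit (b : ℕ) (x : ℝ) (i : ℕ) : ℤ := ⌊x * (b : ℝ) ^ i⌋ % (b : ℤ)

/-- the polynomial `a_1 X + a_2 X^2 + ⋯ + a_L X^L`, where `a_i` is the `i`-th digit of `x` after
the point in base `b` -/
noncomputable def digitPoly (b : ℕ) (x : ℝ) (L : ℕ) : ℚ[X] :=
  ∑ i ∈ Icc 1 L, C (digit b x i : ℚ) * X ^ i

/-- there is a nonzero polynomial `P` in `Y` of degree `≤ r` whose coefficients are polynomials in
`X` over `ℚ` of degree `≤ k` with `P(X, a_1 X + ⋯ + a_L X^L)` divisible by `X^(L+1)` -/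
def AlgRelation (b : ℕ) (x : ℝ) (r L k : ℕ) : Prop :=
  ∃ P : ℚ[X][X], P ≠ 0 ∧ P.natDegree ≤ r ∧ (∀ j, (P.coeff j).natDegree ≤ k) ∧
    X ^ (L + 1) ∣ P.eval (digitPoly b x L)

/-- the algebraic complexity of degree `r` of the first `L` digits of `x` in base `b`: the least
`k` for which there is a relation -/
noncomputable def algComplexity (b : ℕ) (x : ℝ) (r L : ℕ) : ℕ := sInf {k | AlgRelation b x r L k}

/-- there are polynomials `g, h_1, …, h_m` of degree `≤ k` over `ℚ`, not all zero, such that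
`g + h_1 D_1 + ⋯ + h_m D_m` is divisible by `X^(L+1)`, where `D_s = a_1 X + ⋯ + a_L X^L` is formed
with the base `b` digits of `x_s` -/
def LinRelation (b : ℕ) {m : ℕ} (x : Fin m → ℝ) (L k : ℕ) : Prop :=
  ∃ (g : ℚ[X]) (h : Fin m → ℚ[X]), (g ≠ 0 ∨ h ≠ 0) ∧ g.natDegree ≤ k ∧
    (∀ s, (h s).natDegree ≤ k) ∧ X ^ (L + 1) ∣ g + ∑ s, h s * digitPoly b (x s) L

/-- the joint complexity of the first `L` digits of `x_1, …, x_m`: the least `k` for which there
is such a joint relation -/
noncomputable def linComplexity (b : ℕ) {m : ℕ} (x : Fin m → ℝ) (L : ℕ) : ℕ :=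
  sInf {k | LinRelation b x L k}

/-- (1) The algebraic complexity of degree `r` of the first `L` digits of `e` is
`L / (r + 1) + o(L)`, for every `r`, uniformly in the base.
(2) The joint complexity of the first `L` digits of `e^{k_1}, …, e^{k_m}` is `L / (m + 1) + o(L)`,
for distinct integers `k_s ≥ 1`, uniformly in the base.
(3) If for all `η > 0` there is `c > 0` with `|P(x)| ≥ c H^{-(w+η)}` for all nonzero integer
polynomials `P` of degree `≤ r` with coefficients at most `H` in absolute value, then the algebraic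
complexity of degree `r` of the first `L` digits of `x` is at least `(1 / (w + 1) - o(1)) L`,
uniformly in the base.
(4) The algebraic complexity of degree `r` never exceeds `L / (r + 1) + 1`. -/
theorem result :
    (∀ (r : ℕ) (ε : ℝ), 0 < ε → ∃ L₀ : ℕ, ∀ L : ℕ, L₀ ≤ L → ∀ b : ℕ, 2 ≤ b →
      |(algComplexity b (Real.exp 1) r L : ℝ) - L / (r + 1)| < ε * L) ∧
    (∀ (m : ℕ) (k : Fin m → ℕ), Function.Injective k → (∀ s, 1 ≤ k s) →
      ∀ ε : ℝ, 0 < ε → ∃ L₀ : ℕ, ∀ L : ℕ, L₀ ≤ L → ∀ b : ℕ, 2 ≤ b →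
        |(linComplexity b (fun s => Real.exp (k s)) L : ℝ) - L / (m + 1)| < ε * L) ∧
    (∀ (x : ℝ) (r : ℕ) (w : ℝ), 0 ≤ w →
      (∀ η : ℝ, 0 < η → ∃ c : ℝ, 0 < c ∧ ∀ P : ℤ[X], P ≠ 0 → P.natDegree ≤ r →
        ∀ H : ℝ, 1 ≤ H → (∀ j, |(P.coeff j : ℝ)| ≤ H) → c ≤ H ^ (w + η) * |aeval x P|) →
      ∀ ε : ℝ, 0 < ε → ∃ L₀ : ℕ, ∀ L : ℕ, L₀ ≤ L → ∀ b : ℕ, 2 ≤ b →
        (1 / (w + 1) - ε) * L < algComplexity b x r L) ∧
    (∀ (b : ℕ) (x : ℝ) (r L : ℕ), (algComplexity b x r L : ℝ) ≤ L / (r + 1) + 1) := by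
  refine ⟨fun r ε hε => ?_, fun m k hinj hk ε hε => ?_, fun x r w hw hx ε hε => ?_,
    fun b x r L => Pool.Agent.W472.AC.algComplexity_le b x r L⟩
  · obtain ⟨L₀, h⟩ := Pool.Agent.W472.AC.alg_two_sided (Real.exp 1) r
      (fun η hη => Pool.Agent.W472.AC.e_measP r η hη) ε hε
    refine ⟨L₀, fun L hL b hb => ?_⟩
    have h2 : (1 / ((r : ℝ) + 1) - ε) * L < algComplexity b (Real.exp 1) r L ∧
        (algComplexity b (Real.exp 1) r L : ℝ) < (1 / ((r : ℝ) + 1) + ε) * L := h L hL b hb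
    have e : (L : ℝ) / (r + 1) = 1 / ((r : ℝ) + 1) * L := by ring
    rw [abs_lt, e]
    constructor <;> linarith [h2.1, h2.2]
  · obtain ⟨L₀, h⟩ := Pool.Agent.W472.AC.lin_two_sided (fun s => Real.exp (k s))
      (fun η hη => Pool.Agent.W472.AC.e_measL k hinj hk η hη) ε hε
    refine ⟨L₀, fun L hL b hb => ?_⟩
    have h2 : (1 / ((m : ℝ) + 1) - ε) * L < linComplexity b (fun s => Real.exp (k s)) L ∧
        (linComplexity b (fun s => Real.exp (k s)) L : ℝ) < (1 / ((m : ℝ) + 1) + ε) * L :=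
      h L hL b hb
    have e : (L : ℝ) / (m + 1) = 1 / ((m : ℝ) + 1) * L := by ring
    rw [abs_lt, e]
    constructor <;> linarith [h2.1, h2.2]
  · exact Pool.Agent.W472.AC.alg_transfer x r w hw hx ε hε

end Pool.Agent.Results.MP_7e9a3a_nt.AlgebraicComplexity
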