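import Pool.Agent.W47.JL.Single
import Pool.Agent.W47.LC.EBound

/-!
# The `k`-error linear complexity of the digits of `e` and of quadratic irrationals

The `k`-error linear complexity of the first `L` digits of a number is the least order of a linear
recurrence over `ℚ` which is satisfied by the digits after at most `k` of them have been changed.
For `e` and for every real quadratic irrational (for instance `√2`) it is at least
`L / (2 ^ (k + 2) - 2) - O(√(L log L))`, uniformly in the base and in `k`.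
-/

set_option autoImplicit false

namespace Pool.Agent.Results.MP_7e9a3a_nt.ErrorLinearComplexity

open Finset Polynomial

/-- the `i`-th digit of `x` after the point in base `b` -/
noncomputable def digit (b : ℕ) (x : ℝ) (i : ℕ) : ℤ := ⌊x * (b : ℝ) ^ i⌋ % (b : ℤ)

/-- The terms `s_1, …, s_L` satisfy a linear recurrence of order `m` over `ℚ`:
`s_(i+m) = c_0 s_i + … + c_(m-1) s_(i+m-1)` for `1 ≤ i ≤ L - m`. -/
def Recurrence (s : ℕ → ℤ) (L m : ℕ) : Prop :=
  ∃ c : ℕ → ℚ, ∀ i : ℕ, 1 ≤ i → i + m ≤ L →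
    (s (i + m) : ℚ) = ∑ j ∈ range m, c j * (s (i + j) : ℚ)

/-- the `k`-error linear complexity of the first `L` digits of `x` in base `b`: the least order of
a recurrence satisfied by the first `L` terms of a sequence of integers between `-b` and `b` which
differs from the sequence of digits in at most `k` of the places `1, …, L` -/
noncomputable def errorComplexity (b : ℕ) (x : ℝ) (k L : ℕ) : ℕ :=
  sInf {m | ∃ s : ℕ → ℤ, (∀ i, |s i| ≤ b) ∧
    ((Icc 1 L).filter fun i => s i ≠ digit b x i).card ≤ k ∧ Recurrence s L m}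

/-- the function `m + C √((m+1) log (m+2))` -/
noncomputable def F (C : ℝ) (m : ℕ) : ℝ :=
  m + C * Real.sqrt (((m : ℝ) + 1) * Real.log ((m : ℝ) + 2))

lemma dig_abs (b : ℕ) (hb : 2 ≤ b) (x : ℝ) (i : ℕ) : |digit b x i| ≤ b := by
  unfold digit
  have hb0 : (0 : ℤ) < b := by exact_mod_cast (by omega : 0 < b)
  rw [abs_of_nonneg (Int.emod_nonneg _ hb0.ne')]
  exact (Int.emod_lt_of_pos _ hb0).le

/-- the infimum is attained -/
lemma attained (b : ℕ) (hb : 2 ≤ b) (x : ℝ) (k L : ℕ) :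
    ∃ s : ℕ → ℤ, (∀ i, |s i| ≤ b) ∧ ((Icc 1 L).filter fun i => s i ≠ digit b x i).card ≤ k ∧
      Recurrence s L (errorComplexity b x k L) := by
  refine Nat.sInf_mem (s := {m | ∃ s : ℕ → ℤ, (∀ i, |s i| ≤ b) ∧
    ((Icc 1 L).filter fun i => s i ≠ digit b x i).card ≤ k ∧ Recurrence s L m}) ?_
  exact ⟨L, digit b x, dig_abs b hb x, by simp, fun _ => 0, fun i h1 h2 => by omega⟩

/-- numbers which are almost badly approximable -/
theorem main (x A c : ℝ) (hA : 0 ≤ A) (hc : 0 < c)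
    (hx : ∀ q : ℕ, 1 ≤ q → ∀ p : ℤ, c ≤ (q : ℝ) * (1 + Real.log q) ^ A * |q * x - p|) :
    ∃ C : ℝ, ∀ b : ℕ, 2 ≤ b → ∀ k L : ℕ,
      (L : ℝ) ≤ (2 ^ (k + 2) - 2) * F C (errorComplexity b x k L) := by
  obtain ⟨C, hC0, hC⟩ := Pool.Agent.W47.JL.single x 2 c A (by norm_num) hc hA (fun q hq p => by
    have e1 : (q : ℝ) ^ ((2 : ℝ) - 1) = q := by norm_num
    rw [e1]
    exact hx q hq p)
  refine ⟨C, fun b hb k L => ?_⟩
  obtain ⟨s, hs, hE, hrec⟩ := attained b hb x k L
  have h := hC b hb L (errorComplexity b x k L) k s hs hE hrec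
  have e2 : ((2 : ℝ) ^ (k + 2) - 2) / (2 - 1) = 2 ^ (k + 2) - 2 := by norm_num
  rw [e2] at h
  exact h

/-- Liouville's inequality for quadratic irrationals -/
theorem liouville (x : ℝ) (hx : Irrational x) (u v w : ℤ) (hu : u ≠ 0)
    (h : (u : ℝ) * x ^ 2 + v * x + w = 0) :
    ∃ c : ℝ, 0 < c ∧ ∀ q : ℕ, 1 ≤ q → ∀ p : ℤ, c ≤ (q : ℝ) * |q * x - p| := by
  set f : ℤ[X] := C u * X ^ 2 + C v * X + C w with hf
  have hd : f.natDegree = 2 := natDegree_quadratic hu
  have f0 : f ≠ 0 := by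
    intro h0
    rw [h0, natDegree_zero] at hd
    omega
  obtain ⟨a, ha, hL⟩ := Liouville.exists_pos_real_of_irrational_root hx f0 (by
    rw [hf]
    simp only [Polynomial.map_add, Polynomial.map_mul, Polynomial.map_pow, Polynomial.map_C,
      Polynomial.map_X, eval_add, eval_mul, eval_pow, eval_C, eval_X]
    simpa using h)
  refine ⟨1 / a, by positivity, fun q hq p => ?_⟩
  have h1 := hL p (q - 1)
  have hqR : (0 : ℝ) < q := by exact_mod_cast hq
  have e1 : (((q - 1 : ℕ) : ℝ) + 1) = q := by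
    rw [Nat.cast_sub hq]
    push_cast
    ring
  rw [e1, hd] at h1
  have e2 : |x - p / q| = |q * x - p| / q := by
    rw [← abs_of_pos hqR, ← abs_div, abs_of_pos hqR]
    congr 1
    field_simp
  rw [e2] at h1
  rw [div_le_iff₀ ha]
  calc (1 : ℝ) ≤ (q : ℝ) ^ 2 * (|q * x - p| / q * a) := h1
    _ = (q : ℝ) * |q * x - p| * a := by field_simp

/-- (1) For `e` there is a constant `C` such that for all bases `b ≥ 2` and all `k` and `L` the
`k`-error linear complexity `m` of the first `L` digits in base `b` satisfies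
`L ≤ (2 ^ (k + 2) - 2) (m + C √((m+1) log (m+2)))`.

(2) The same holds for `√2`, and more generally for every real quadratic irrational.

(3) The same holds for every real number `x` such that for some `A ≥ 0` and some `c > 0` one has
`|q x - p| ≥ c / (q (1 + log q)^A)` for all integers `p` and `q ≥ 1`. -/
theorem result :
    (∃ C : ℝ, ∀ b : ℕ, 2 ≤ b → ∀ k L : ℕ,
      (L : ℝ) ≤ (2 ^ (k + 2) - 2) * F C (errorComplexity b (Real.exp 1) k L)) ∧
    ((∃ C : ℝ, ∀ b : ℕ, 2 ≤ b → ∀ k L : ℕ,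
      (L : ℝ) ≤ (2 ^ (k + 2) - 2) * F C (errorComplexity b (Real.sqrt 2) k L)) ∧
    (∀ x : ℝ, Irrational x →
      (∃ u v w : ℤ, u ≠ 0 ∧ (u : ℝ) * x ^ 2 + v * x + w = 0) →
      ∃ C : ℝ, ∀ b : ℕ, 2 ≤ b → ∀ k L : ℕ,
        (L : ℝ) ≤ (2 ^ (k + 2) - 2) * F C (errorComplexity b x k L))) ∧
    (∀ x A c : ℝ, 0 ≤ A → 0 < c →
      (∀ q : ℕ, 1 ≤ q → ∀ p : ℤ, c ≤ (q : ℝ) * (1 + Real.log q) ^ A * |q * x - p|) →
      ∃ C : ℝ, ∀ b : ℕ, 2 ≤ b → ∀ k L : ℕ,
        (L : ℝ) ≤ (2 ^ (k + 2) - 2) * F C (errorComplexity b x k L)) := by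
  have hq : ∀ x : ℝ, Irrational x →
      (∃ u v w : ℤ, u ≠ 0 ∧ (u : ℝ) * x ^ 2 + v * x + w = 0) →
      ∃ C : ℝ, ∀ b : ℕ, 2 ≤ b → ∀ k L : ℕ,
        (L : ℝ) ≤ (2 ^ (k + 2) - 2) * F C (errorComplexity b x k L) := by
    rintro x hx ⟨u, v, w, hu, h⟩
    obtain ⟨c, hc, hq⟩ := liouville x hx u v w hu h
    refine main x 0 c le_rfl hc (fun q hq1 p => ?_)
    rw [Real.rpow_zero, mul_one]
    exact hq q hq1 p
  refine ⟨?_, ⟨?_, hq⟩, fun x A c hA hc hx => main x A c hA hc hx⟩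
  · refine main (Real.exp 1) 1 (1 / 1000) (by norm_num) (by norm_num) (fun q hq1 p => ?_)
    rw [Real.rpow_one]
    have := Pool.Agent.W47.LC.eBound q hq1 p
    rw [pow_one] at this
    exact this
  · refine hq _ irrational_sqrt_two ⟨1, 0, -2, one_ne_zero, ?_⟩
    have := Real.sq_sqrt (by norm_num : (0 : ℝ) ≤ 2)
    push_cast
    rw [this]
    norm_num

end Pool.Agent.Results.MP_7e9a3a_nt.ErrorLinearComplexity
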