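import Pool.Agent.W226.MP.EPlace

/-!
# The words of digits of the multiples of `e` and of `√2`

After every place `N` there is a place `n ≤ 2 N + L + o(N + L)` at which the words of length `L` of the
multiples `m e`, resp. `m √2` (and of `x + m e`, `x + m √2`, for every real `x`) are as well
distributed as possible.
-/

set_option autoImplicit false

namespace Pool.Agent.Results.MP_7e9a3a_nt.MultiplesOfEAndSqrtTwo

open Finset Pool.Agent.W226.MP

open Classical in
/-- (1) There is a constant `C` such that for all bases `b ≥ 2`, all lengths `L` and all places `N`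
there is a good place `n` for the words of length `L` of the multiples of `e` (see `GoodPlace`) with
`N ≤ n ≤ 2 N + L + 2 log (1 + L + N) + C`. (2) The same for `√2` with `N ≤ n ≤ 2 N + L + C`. (3) Let
`α = e` or `α = √2`. For every real `x` and every set `W` of words of length `L`, the number of
`m < b ^ L` such that all but finitely many of the words of length `L` in the expansion of `x + m α`
belong to `W` is at most `2 b |W|`. (4) In particular, for every block `w` of `k` digits, the number of
`m < b ^ L` such that `w` occurs only finitely often in `x + m α` is at most `2 b` times the number of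
words of length `L` in which `w` does not occur. -/
theorem result :
    (∃ C : ℝ, ∀ b : ℕ, 2 ≤ b → ∀ L N : ℕ, ∃ n : ℕ, N ≤ n ∧
      (n : ℝ) ≤ 2 * N + L + 2 * Real.log (1 + L + N) + C ∧ GoodPlace b (Real.exp 1) L n) ∧
    (∃ C : ℝ, ∀ b : ℕ, 2 ≤ b → ∀ L N : ℕ, ∃ n : ℕ, N ≤ n ∧
      (n : ℝ) ≤ 2 * N + L + C ∧ GoodPlace b (√2) L n) ∧
    (∀ α : ℝ, α = Real.exp 1 ∨ α = √2 → ∀ b L : ℕ, 2 ≤ b →
      ∀ (W : Finset (Fin L → Fin b)) (x : ℝ), ((range (b ^ L)).filter (fun m : ℕ =>
        {p : ℕ | ∀ v ∈ W, ¬ OccursAt b L v (x + m * α) p}.Finite)).card ≤ 2 * b * W.card) ∧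
    (∀ α : ℝ, α = Real.exp 1 ∨ α = √2 → ∀ b k L : ℕ, 2 ≤ b → ∀ (w : Fin k → Fin b) (x : ℝ),
      ((range (b ^ L)).filter (fun m : ℕ =>
        {p : ℕ | OccursAt b k w (x + m * α) p}.Finite)).card
        ≤ 2 * b * (univ.filter (fun v : Fin L → Fin b => Avoids b k L w v)).card) := by
  have hs : Irrational (√2) := irrational_sqrt_two
  have he : Irrational (Real.exp 1) := by
    intro ⟨r, hr⟩
    have h1 := Pool.Agent.W47.LC.eBound r.den r.den_pos r.num
    have h2 : (r.den : ℝ) * Real.exp 1 - r.num = 0 := by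
      rw [← hr]
      have := Rat.mul_den_eq_num r
      have h3 : (r : ℝ) * r.den = r.num := by exact_mod_cast this
      linarith
    rw [h2, abs_zero, mul_zero] at h1
    norm_num at h1
  refine ⟨place_e, ?_, ?_, ?_⟩
  · obtain ⟨c0, hc0, h⟩ := liouville2 (√2) hs 1 0 (-2) one_ne_zero (by
      have := Real.sq_sqrt (by norm_num : (0 : ℝ) ≤ 2)
      push_cast
      linarith)
    obtain ⟨C, hC⟩ := place_of_measure (√2) 1 c0 hs one_pos hc0 h
    refine ⟨C, fun b hb L N => ?_⟩
    obtain ⟨n, h1, h2, h3⟩ := hC b hb L N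
    refine ⟨n, h1, h2.trans (le_of_eq ?_), h3⟩
    ring
  · rintro α (rfl | rfl) b L hb W x
    · exact finite_words b L hb _ he W x
    · exact finite_words b L hb _ hs W x
  · rintro α (rfl | rfl) b k L hb w x
    · exact finite_occ b k L hb _ he w x
    · exact finite_occ b k L hb _ hs w x

end Pool.Agent.Results.MP_7e9a3a_nt.MultiplesOfEAndSqrtTwo
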