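import Pool.Agent.W301.RM.Dio

/-!
# The digits of random multiples of an algebraic irrational number

Let `ξ` be a real algebraic irrational number and `b ≥ 2`. For `η > 0` and a fixed number `s` of
windows of digits among the first `N` digits, the digits of `x + m ξ`, where `m` is a random integer
below `b^(η N)` (or below any larger bound), are jointly uniformly distributed, up to an error that is
exponentially small in `N`.
-/

set_option autoImplicit false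

namespace Pool.Agent.Results.MP_7e9a3a_nt.RandomMultiples

open Finset

open Classical in
/-- Let `ξ` be real, algebraic and irrational, `b ≥ 2`, `s ≥ 1`, `η > 0`. There are `c > 0` and `N₀` such
that for all `N ≥ N₀`, all `M ≥ b^(η N)`, all real `x`, all `1 ≤ ℓ ≤ c N`, all `n₁, …, n_s ≤ N` such that
the windows `(n_j, n_j + ℓ]` are pairwise disjoint and every set `A` of `s`-tuples of integers in
`[0, b^ℓ)`, the number of `m < M` such that the tuple of the integers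
`⌊b^(n_j + ℓ) (x + m ξ)⌋ mod b^ℓ` (the integer whose base `b` digits are the digits
`n_j + 1, …, n_j + ℓ` of `x + m ξ`) belongs to `A` differs from `|A| b^(-s ℓ) M` by at most
`b^(-c N) M`. -/
theorem result (b : ℕ) (hb : 2 ≤ b) (ξ : ℝ) (halg : IsAlgebraic ℚ ξ) (hirr : Irrational ξ) (s : ℕ)
    (hs : 1 ≤ s) (η : ℝ) (hη : 0 < η) :
    ∃ c : ℝ, 0 < c ∧ ∃ N₀ : ℕ, ∀ N : ℕ, N₀ ≤ N → ∀ M : ℕ, (b : ℝ) ^ (η * N) ≤ M → ∀ (x : ℝ) (ℓ : ℕ),
      1 ≤ ℓ → (ℓ : ℝ) ≤ c * N → ∀ n : Fin s → ℕ, (∀ j, n j ≤ N) →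
      (∀ i j, i ≠ j → n i + ℓ ≤ n j ∨ n j + ℓ ≤ n i) →
      ∀ A : Finset (Fin s → ℤ), A ⊆ Fintype.piFinset (fun _ => Finset.Ico (0 : ℤ) ((b : ℤ) ^ ℓ)) →
      |(((range M).filter (fun m : ℕ =>
          (fun j => ⌊(b : ℝ) ^ (n j + ℓ) * (x + m * ξ)⌋ % (b : ℤ) ^ ℓ) ∈ A)).card : ℝ) -
        A.card / ((b ^ (s * ℓ) : ℕ) : ℝ) * M| ≤ (b : ℝ) ^ (-(c * N)) * M := by
  obtain ⟨c, hc, N0, h⟩ := Pool.Agent.W301.RM.indep b hb ξ halg hirr s hs η hη
  refine ⟨c, hc, N0, fun N hN M hM x ℓ hℓ hℓc n hn hdis A hA => ?_⟩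
  have h1 := h N hN M hM x ℓ hℓ hℓc n hn hdis A hA
  have h2 : ((range M).filter (fun m : ℕ =>
      (fun j => ⌊(b : ℝ) ^ (n j + ℓ) * (x + m * ξ)⌋ % (b : ℤ) ^ ℓ) ∈ A)).card =
      ((range M).filter (fun m : ℕ => Pool.Agent.W301.RM.tup b ℓ n (x + m * ξ) ∈ A)).card := by
    congr 1
  rw [h2]
  exact h1

end Pool.Agent.Results.MP_7e9a3a_nt.RandomMultiples
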